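import Pool.Agent.Lib.DK.Base
import Pool.Agent.Lib.DK.IfaceC

/-!
# Theorem DK, part CV: elementary facts (author helper97)
-/

set_option autoImplicit false

open scoped Pointwise

noncomputable section

namespace Pool.Agent.DK

open Pool.Agent.MuZ Pool.Agent.FW NumberField IsDedekindDomain
open Pool.Agent.DI (io ofC io_inj exists_io io_ofC ofC_io VP MP UP TP ex sqr sqr_sq kap)

variable {k : ℕ}

/-! ## Roots of unity -/

theorem CV_ex_pow {n : ℕ} (hn : 0 < n) : (ex (1 / n) : ℂ) ^ n = 1 := by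
  have hn' : (n : ℂ) ≠ 0 := by exact_mod_cast hn.ne'
  unfold ex
  rw [← Complex.exp_nat_mul]
  refine Eq.trans ?_ Complex.exp_two_pi_mul_I
  congr 1
  field_simp

theorem CV_io_zet {n : ℕ} (hn : 0 < n) : io (zet n) = ex (1 / n) := by
  refine io_ofC _ ⟨Polynomial.X ^ n - 1, ?_, ?_⟩
  · exact Polynomial.X_pow_sub_C_ne_zero (R := ℚ) hn 1
  · rw [map_sub, map_pow, Polynomial.aeval_X, map_one, CV_ex_pow hn, sub_self]

theorem CV_zet_pow {n : ℕ} (hn : 0 < n) : zet n ^ n = 1 := by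
  apply io_inj
  rw [map_pow, CV_io_zet hn, CV_ex_pow hn, map_one]

theorem CV_zet_ne {n : ℕ} (hn : 0 < n) : zet n ≠ 0 := by
  intro h
  have h1 := CV_zet_pow hn
  rw [h, zero_pow hn.ne'] at h1
  exact zero_ne_one h1

theorem CV_vp_of_pow {P : Ideal ZZ} (hP : P.IsPrime) {x : Om} {n : ℕ} (hn : 0 < n) (h : x ^ n = 1) :
    VP P x := by
  refine DI.VP.of_pow hn ?_
  rw [h]
  exact DI.VP.one

theorem CV_up_of_pow {P : Ideal ZZ} (hP : P.IsPrime) {x : Om} {n : ℕ} (hn : 0 < n) (h : x ^ n = 1) :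
    UP P x := by
  refine DI.UP.of_pow hn ?_
  rw [h]
  exact DI.UP.one

theorem CV_up_zpow {P : Ideal ZZ} (hP : P.IsPrime) {x : Om} (h : UP P x) (n : ℤ) : UP P (x ^ n) := by
  obtain ⟨m, rfl | rfl⟩ := n.eq_nat_or_neg
  · rw [zpow_natCast]
    exact h.pow m
  · rw [zpow_neg, zpow_natCast]
    exact (h.pow m).inv

/-! ## Odd integers -/

theorem CV_mp_even {P : Ideal ZZ} (hP : P.IsPrime) (h2 : MP P 2) {n : ℤ} (hn : Even n) :
    MP P (n : Om) := by
  obtain ⟨m, rfl⟩ := hn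
  have e : ((m + m : ℤ) : Om) = (m : Om) * 2 := by
    push_cast
    ring
  rw [e]
  exact DI.MP.mul_left (DI.VP.int m) h2

theorem CV_up_odd {P : Ideal ZZ} (hP : P.IsPrime) (h2 : MP P 2) {n : ℤ} (hn : Odd n) :
    UP P (n : Om) := by
  refine ⟨DI.VP.int n, fun h => ?_⟩
  obtain ⟨m, rfl⟩ := hn
  have h3 := CV_mp_even hP h2 (even_two_mul m)
  have h4 := h.sub h3
  have e : ((2 * m + 1 : ℤ) : Om) - ((2 * m : ℤ) : Om) = 1 := by
    push_cast
    ring
  rw [e] at h4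
  exact DI.MP.one_not h4

theorem CV_mp_iff {P : Ideal ZZ} (hP : P.IsPrime) (h2 : MP P 2) (n : ℤ) :
    MP P (n : Om) ↔ Even n := by
  constructor
  · intro h
    by_contra h1
    exact (CV_up_odd hP h2 (Int.not_even_iff_odd.1 h1)).2 h
  · exact CV_mp_even hP h2

/-! ## The ideal `2 V_P` -/

theorem CV_tp_zero {P : Ideal ZZ} (hP : P.IsPrime) (t : Om) : TP P t 0 :=
  ⟨0, DI.VP.zero, by ring⟩

theorem CV_tp_add {P : Ideal ZZ} (hP : P.IsPrime) {t x y : Om} (hx : TP P t x) (hy : TP P t y) :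
    TP P t (x + y) := by
  obtain ⟨a, ha, rfl⟩ := hx
  obtain ⟨b, hb, rfl⟩ := hy
  exact ⟨a + b, ha.add hb, by ring⟩

theorem CV_tp_neg {P : Ideal ZZ} {t x : Om} (hx : TP P t x) : TP P t (-x) := by
  obtain ⟨a, ha, rfl⟩ := hx
  exact ⟨-a, ha.neg, by ring⟩

theorem CV_tp_sub {P : Ideal ZZ} (hP : P.IsPrime) {t x y : Om} (hx : TP P t x) (hy : TP P t y) :
    TP P t (x - y) := by
  rw [sub_eq_add_neg]
  exact CV_tp_add hP hx (CV_tp_neg hy)

theorem CV_tp_mul {P : Ideal ZZ} (hP : P.IsPrime) {t x y : Om} (hx : TP P t x) (hy : VP P y) :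
    TP P t (x * y) := by
  obtain ⟨a, ha, rfl⟩ := hx
  exact ⟨a * y, ha.mul hy, by ring⟩

theorem CV_tp_sum {P : Ideal ZZ} (hP : P.IsPrime) {t : Om} {ι : Type} (s : Finset ι) (f : ι → Om)
    (h : ∀ i ∈ s, TP P t (f i)) : TP P t (∑ i ∈ s, f i) := by
  classical
  induction s using Finset.induction_on with
  | empty => rw [Finset.sum_empty]; exact CV_tp_zero hP t
  | insert a s ha ih =>
    rw [Finset.sum_insert ha]
    exact CV_tp_add hP (h a (Finset.mem_insert_self a s))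
      (ih fun i hi => h i (Finset.mem_insert_of_mem hi))

theorem CV_tp_mp {P : Ideal ZZ} (hP : P.IsPrime) (h2 : MP P 2) {x : Om} (h : TP P 2 x) : MP P x := by
  obtain ⟨a, ha, rfl⟩ := h
  exact DI.MP.mul_right h2 ha

theorem CV_tp_vp {P : Ideal ZZ} (hP : P.IsPrime) {x : Om} (h : TP P 2 x) : VP P x := by
  obtain ⟨a, ha, rfl⟩ := h
  have h1 : VP P ((2 : ℤ) : Om) := DI.VP.int 2
  rw [Int.cast_ofNat] at h1
  exact h1.mul ha

/-- `x` is `± 1` modulo `2`, so it is `1` modulo `2`. -/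
theorem CV_tp_pm {P : Ideal ZZ} (hP : P.IsPrime) {x : Om} (h : TP P 2 (x - 1) ∨ TP P 2 (x + 1)) :
    TP P 2 (x - 1) := by
  rcases h with h | h
  · exact h
  · have h1 : TP P 2 (2 : Om) := ⟨1, DI.VP.one, by ring⟩
    have h3 := CV_tp_sub hP h h1
    have e : x + 1 - 2 = x - 1 := by ring
    rwa [e] at h3

theorem CV_tp_int {P : Ideal ZZ} (hP : P.IsPrime) {n : ℤ} (hn : Odd n) : TP P 2 ((n : Om) - 1) := by
  obtain ⟨m, rfl⟩ := hn
  refine ⟨(m : Om), DI.VP.int m, ?_⟩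
  push_cast
  ring

/-- Products of elements which are `1` modulo `2`. -/
theorem CV_tp_one_mul {P : Ideal ZZ} (hP : P.IsPrime) {x y : Om} (hx : TP P 2 (x - 1))
    (hy : TP P 2 (y - 1)) : TP P 2 (x * y - 1) := by
  have hy' : VP P y := by
    have h1 := (CV_tp_vp hP hy).add (DI.VP.one (P := P))
    rwa [sub_add_cancel] at h1
  have e : x * y - 1 = (x - 1) * y + (y - 1) := by ring
  rw [e]
  exact CV_tp_add hP (CV_tp_mul hP hx hy') hy

theorem CV_tp_one_up {P : Ideal ZZ} (hP : P.IsPrime) (h2 : MP P 2) {x : Om} (hx : TP P 2 (x - 1)) :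
    UP P x := DI.UP.congr DI.UP.one (CV_tp_mp hP h2 hx)

theorem CV_tp_one_inv {P : Ideal ZZ} (hP : P.IsPrime) (h2 : MP P 2) {x : Om} (hx : TP P 2 (x - 1)) :
    TP P 2 (x⁻¹ - 1) := by
  have hu := CV_tp_one_up hP h2 hx
  have e : x⁻¹ - 1 = -((x - 1) * x⁻¹) := by
    rw [sub_mul, mul_inv_cancel₀ hu.ne_zero]
    ring
  rw [e]
  exact CV_tp_neg (CV_tp_mul hP hx hu.inv.1)

theorem CV_tp_one_div {P : Ideal ZZ} (hP : P.IsPrime) (h2 : MP P 2) {x y : Om} (hx : TP P 2 (x - 1))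
    (hy : TP P 2 (y - 1)) : TP P 2 (x / y - 1) := by
  rw [div_eq_mul_inv]
  exact CV_tp_one_mul hP hx (CV_tp_one_inv hP h2 hy)

/-! ## Denominators -/

theorem CV_den_coprime {r : ℚ} {p q : ℤ} {M : ℕ} (hq : IsCoprime q (M : ℤ)) (hM : 2 ≤ M)
    (h : r = p / q) : r.den.Coprime M := by
  have hq0 : q ≠ 0 := by
    rintro rfl
    have h1 := Int.isUnit_iff.1 (isCoprime_zero_left.1 hq)
    omega
  have h1 : (r.den : ℤ) ∣ q := by
    rw [h, ← Rat.divInt_eq_div]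
    exact Rat.den_dvd p q
  exact Nat.isCoprime_iff_coprime.1 (hq.of_isCoprime_of_dvd_left h1)

/-- The values of the elements of `Γ_0(M)`. -/
theorem CV_mob {M : ℕ} (hM : 2 ≤ M) {a b c d : ℤ} (h : G0 M a b c d) {r : ℚ} (hr : r.den.Coprime M) :
    IsCoprime d (M : ℤ) ∧ IsCoprime a (M : ℤ) ∧ (c : ℚ) * r + d ≠ 0 ∧
      ((a * r + b) / (c * r + d) : ℚ).den.Coprime M := by
  obtain ⟨h1, c', rfl⟩ := h
  have hd : IsCoprime d (M : ℤ) := ⟨a, -(b * c'), by linarith⟩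
  have ha : IsCoprime a (M : ℤ) := ⟨d, -(b * c'), by linarith⟩
  have hr' : IsCoprime (r.den : ℤ) (M : ℤ) := Nat.isCoprime_iff_coprime.2 hr
  have hden : (r.den : ℚ) ≠ 0 := by exact_mod_cast r.den_ne_zero
  have hrr : r = r.num / r.den := (Rat.num_div_den r).symm
  have hq : IsCoprime (M * c' * r.num + d * r.den) (M : ℤ) := by
    have e : (M : ℤ) * c' * r.num + d * r.den = d * r.den + M * (c' * r.num) := by ring
    rw [e]
    exact (IsCoprime.add_mul_left_left_iff).2 (hd.mul_left hr')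
  have hq0 : (M * c' * r.num + d * r.den : ℤ) ≠ 0 := by
    intro h0
    rw [h0] at hq
    have h1 := Int.isUnit_iff.1 (isCoprime_zero_left.1 hq)
    omega
  have hq0' : ((M * c' * r.num + d * r.den : ℤ) : ℚ) ≠ 0 := by exact_mod_cast hq0
  have e1 : ((M * c' : ℤ) : ℚ) * r + d = ((M * c' * r.num + d * r.den : ℤ) : ℚ) / r.den := by
    rw [eq_div_iff hden]
    push_cast
    have : r * r.den = r.num := Rat.mul_den_eq_num r
    linear_combination (M * c' : ℚ) * this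
  have hne : ((M * c' : ℤ) : ℚ) * r + d ≠ 0 := by
    rw [e1]
    exact div_ne_zero hq0' hden
  refine ⟨hd, ha, hne, ?_⟩
  refine CV_den_coprime (p := a * r.num + b * r.den) hq hM ?_
  rw [e1, div_div_eq_mul_div]
  congr 1
  push_cast
  have : r * r.den = r.num := Rat.mul_den_eq_num r
  linear_combination (a : ℚ) * this

/-! ## Ideals -/

theorem CV_top (N : ℕ) : PrI (⊤ : Ideal (OO k)) N := top_sup_eq _

theorem CV_fb_top (f : ℕ) [SqK k] : FB (k := k) f ⊤ := ⟨top_ne_bot, CV_top f⟩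

theorem CV_fb_mul (h6 : S_O6) [SqK k] {f : ℕ} {a b : Ideal (OO k)} (ha : FB f a) (hb : FB f b) :
    FB f (a * b) := ⟨mul_ne_zero ha.ne hb.ne, ((h6 k).1 f a b).2 ⟨ha.cop, hb.cop⟩⟩

theorem CV_sp_ne [SqK k] {v : OO k} (hv : v ≠ 0) : sp v ≠ ⊥ := by
  intro h
  exact hv (Ideal.span_singleton_eq_bot.1 h)

theorem CV_int_ne [SqK k] {n : ℤ} (hn : n ≠ 0) : ((n : ℤ) : OO k) ≠ 0 := by
  intro h
  have h1 := congrArg (fun v : OO k => v.re) h
  rw [re_int] at h1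
  exact hn h1

theorem CV_nat_ne [SqK k] {n : ℕ} (hn : n ≠ 0) : ((n : ℕ) : OO k) ≠ 0 := by
  have h := CV_int_ne (k := k) (n := n) (by exact_mod_cast hn)
  rwa [Int.cast_natCast] at h

theorem CV_pri_int (h6 : S_O6) [SqK k] {N : ℕ} (hN : 0 < N) {n : ℤ} (h : IsCoprime n (N : ℤ)) :
    PrI (sp (n : OO k)) N := by
  rw [(h6 k).2.2.2.1 N (n : OO k) hN]
  unfold Cop
  rw [Nm_int]
  exact h.pow_left

theorem CV_pri_nat (h6 : S_O6) [SqK k] {N : ℕ} (hN : 0 < N) {n : ℕ} (h : n.Coprime N) :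
    PrI (sp (n : OO k)) N := by
  have h1 := CV_pri_int h6 (k := k) hN (Nat.isCoprime_iff_coprime.2 h)
  rwa [Int.cast_natCast] at h1

theorem CV_fb_int (h6 : S_O6) [SqK k] {f : ℕ} (hf : 0 < f) {n : ℤ} (h0 : n ≠ 0)
    (h : IsCoprime n (f : ℤ)) : FB f (sp (n : OO k)) :=
  ⟨CV_sp_ne (CV_int_ne h0), CV_pri_int h6 hf h⟩

theorem CV_pri_dvd (h6 : S_O6) [SqK k] {N M : ℕ} {a : Ideal (OO k)} (h : PrI a N) (hM : M ∣ N) :
    PrI a M := by
  obtain ⟨t, rfl⟩ := hM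
  exact (((h6 k).2.1 M t a).1 h).1

theorem CV_NI_mem (h3 : S_O3) [SqK k] (a : Ideal (OO k)) : ((NI a : ℕ) : OO k) ∈ a := by
  have h := ((h3 k).2.2.1 a).2.2
  have h1 : ((NI a : ℕ) : OO k) ∈ sp ((NI a : ℕ) : OO k) := Ideal.mem_span_singleton_self _
  have h2 : sp ((NI a : ℕ) : OO k) ≤ a := h.symm.le.trans Ideal.mul_le_left
  exact h2 h1

/-- `1/f` is not in the lattice of an ideal prime to `f`. -/
theorem CV_inv_not [SqK k] {f : ℕ} (hf : 2 ≤ f) {b : Ideal (OO k)} (hb : PrI b f) :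
    (1 / f : ℂ) ∉ Lam b := by
  intro h
  have hf' : (f : ℂ) ≠ 0 := by
    have : f ≠ 0 := by omega
    exact_mod_cast this
  have h1 : b ≤ sp (f : OO k) := by
    intro v hv
    obtain ⟨u, hu⟩ := h v hv
    refine Ideal.mem_span_singleton.2 ⟨u, toC_inj ?_⟩
    rw [toC_mul, toC_nat, ← hu]
    field_simp
  have hb' : b ⊔ Ideal.span {(f : OO k)} = ⊤ := hb
  have hb2 : Ideal.span {(f : OO k)} = ⊤ := (sup_eq_right.2 h1).symm.trans hb'
  have h2 : (1 : OO k) ∈ Ideal.span {(f : OO k)} := (Ideal.eq_top_iff_one _).1 hb2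
  have h3 : (f : ℤ) ∣ (1 : OO k).re := ((nat_dvd_iff f (1 : OO k)).1 (Ideal.mem_span_singleton.1 h2)).1
  rw [re_one] at h3
  have h4 := Int.le_of_dvd one_pos h3
  omega

/-- The points `z_u = 1/(f n) + u`. -/
theorem CV_zu [SqK k] {f n : ℕ} (hf : 2 ≤ f) (hn : 0 < n) {m b : Ideal (OO k)} (hmb : PrI (m * b) f)
    {u : ℂ} (hu : u ∈ Lam (sp (n : OO k) * b)) :
    (1 / (f * n) + u : ℂ) ∉ Lam (m * b) ∧ ∀ t : ℕ, ((t * (f * n) : ℕ) : ℂ) * (1 / (f * n) + u) ∈ Lam b := by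
  have hf' : (f : ℂ) ≠ 0 := by
    have : f ≠ 0 := by omega
    exact_mod_cast this
  have hn' : (n : ℂ) ≠ 0 := by exact_mod_cast hn.ne'
  have hu1 : (n : ℂ) * u ∈ Lam b := by
    have h1 := lam_sp.1 hu
    rwa [toC_nat] at h1
  constructor
  · intro h
    apply CV_inv_not hf hmb
    have h1 := lam_nat n h
    have h2 := lam_sub h1 (lam_mono (a := m) hu1)
    have e : (n : ℂ) * (1 / (f * n) + u) - n * u = 1 / f := by
      field_simp
      ring
    rwa [e] at h2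
  · intro t
    have h1 : (1 : ℂ) ∈ Lam b := fun v _ => ⟨v, by rw [mul_one]⟩
    have h2 := lam_nat t (lam_add h1 (lam_nat f hu1))
    have e : ((t * (f * n) : ℕ) : ℂ) * (1 / (f * n) + u) = t * (1 + f * (n * u)) := by
      push_cast
      field_simp
    rwa [e]

end Pool.Agent.DK
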