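import Pool.Agent.Lib.DK.CV.Bas

/-!
# Theorem DK, part CV, module C8: the Galois action on the values of the theta series (author helper97)
-/

set_option autoImplicit false

open scoped Pointwise

noncomputable section

namespace Pool.Agent.DK

open Pool.Agent.MuZ Pool.Agent.FW NumberField IsDedekindDomain
open Pool.Agent.DI (io ofC io_inj exists_io io_ofC ofC_io VP MP UP TP ex sqr sqr_sq kap)

variable {k : ℕ}

/-- A system for `b` is a system for `a b`, `a` prime to `n`. -/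
theorem C8_sys (hL5 : S_L5) [SqK k] {a b : Ideal (OO k)} (ha : a ≠ ⊥) (hb : b ≠ ⊥) {n : ℕ} (hn : 0 < n)
    (hc : PrI a n) {U : Finset ℂ} (hU : IsSys (sp (n : OO k)) b U) :
    IsSys (sp (n : OO k)) (a * b) U := by
  obtain ⟨h1, h2⟩ := hL5 k a b n ha hb hn hc
  have hn' : ∀ (b' : Ideal (OO k)) (z : ℂ), z ∈ Lam (sp (n : OO k) * b') ↔ (n : ℂ) * z ∈ Lam b' := by
    intro b' z
    rw [lam_sp, toC_nat]
  refine ⟨fun u hu => ?_, fun z hz => ?_, fun u hu u' hu' huu => ?_⟩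
  · rw [hn']
    exact lam_mono ((hn' b u).1 (hU.mem u hu))
  · obtain ⟨z', hz', hzz⟩ := h2 z ((hn' _ z).1 hz)
    obtain ⟨u, hu, huz⟩ := hU.ex z' ((hn' b z').2 hz')
    refine ⟨u, hu, ?_⟩
    have h3 := lam_add hzz (lam_mono (a := a) huz)
    rwa [sub_add_sub_cancel] at h3
  · refine hU.uni u hu u' hu' (h1 _ ?_ huu)
    have h3 := lam_sub ((hn' b u).1 (hU.mem u hu)) ((hn' b u').1 (hU.mem u' hu'))
    rwa [← mul_sub] at h3

theorem sC8 (h2 : S_O2) (h6 : S_O6) (h7 : S_O7) (hL3 : S_L3) (hL5 : S_L5) (hC4 : S_C4) (hC6 : S_C6)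
    (hE1 : S_E1) (hE6 : S_E6) (hE10 : S_E10) : S_C8 := by
  intro k _ f m b hm hb r hr τ hτ a hτa
  have hf0 : 0 < f := by have := hm.three; omega
  set n : ℕ := r.den with hn
  have hn0 : 0 < n := r.den_pos
  have hrr : ((r.num : ℤ) : ℚ) / n = r := Rat.num_div_den r
  have hNm0 : NI m ≠ 0 := fun h => hm.ne (((h2 k).2.2.2.2.2.1 m).1 h)
  have hNm : 0 < NI m := Nat.pos_of_ne_zero hNm0
  set N : ℕ := NI m * (f * n) with hN
  have hN0 : 0 < N := Nat.mul_pos hNm (Nat.mul_pos hf0 hn0)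
  obtain ⟨a', ha'⟩ := (hE1 k N hN0).1 τ hτ
  have hfN : f ∣ N := ⟨NI m * n, by rw [hN]; ring⟩
  have hnN : n ∣ N := ⟨NI m * f, by rw [hN]; ring⟩
  have ha'f : Psi τ f a' := (hE1 k N hN0).2.2.2.2 τ f a' ha' hfN
  have hray : Ray f a a' := (hE1 k f hf0).2.1 τ a a' hτa ha'f
  have haFB : FB f a := ⟨hτa.ne, hτa.cop⟩
  have haFB' : FB f a' := ⟨ha'.ne, ha'f.cop⟩
  have hray' : Ray f (a * b) (a' * b) :=
    (h7 k f hf0).2.2.2.1 a a' b b hray ((h7 k f hf0).1 b)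
  have e1 := ((hC6 k f m (a * b) hm (CV_fb_mul h6 haFB hb)).1 (a' * b) (CV_fb_mul h6 haFB' hb)
    hray').2 r
  rw [e1]
  -- the formula
  obtain ⟨U, hU, -⟩ := (hL3 k (sp (n : OO k)) b (CV_sp_ne (CV_nat_ne hn0.ne')) hb.ne).2.2
  have hcop' : PrI a' n := CV_pri_dvd h6 ha'.cop hnN
  have hU' := C8_sys hL5 ha'.ne hb.ne hn0 hcop' hU
  obtain ⟨-, -, h8⟩ := hC4 k f m b hm hb r.num n hn0 hr
  obtain ⟨-, -, h9⟩ := hC4 k f m (a' * b) hm (CV_fb_mul h6 haFB' hb) r.num n hn0 hr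
  obtain ⟨h10, h11⟩ := h8 U hU
  obtain ⟨h12, h13⟩ := h9 U hU'
  rw [hrr] at h11 h13
  rw [h11, h13, map_mul, map_inv₀, map_natCast, map_sum]
  congr 1
  refine Finset.sum_congr rfl fun u hu => ?_
  have hmb : PrI (m * b) f := ((h6 k).1 f m b).2 ⟨hm.cop, hb.cop⟩
  have hf2 : 2 ≤ f := by have := hm.three; omega
  obtain ⟨hz1, hz2⟩ := CV_zu hf2 hn0 hmb (hU.mem u hu)
  have hq : qN m (a' * b) (1 + f * n * u) = NI a' * qN m b (1 + f * n * u) := by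
    have h14 := h10 u hu
    have h15 := h12 u hu
    rw [(h2 k).2.2.2.2.1] at h15
    have h16 : ((qN m (a' * b) (1 + f * n * u) : ℤ) : ℝ) =
        ((NI a' * qN m b (1 + f * n * u) : ℤ) : ℝ) := by
      rw [h15]
      push_cast
      rw [h14]
      ring
    exact_mod_cast h16
  rw [map_mul, map_zpow₀, hE6 k τ N a' hτ hN0 ha' (zet n) (by
    obtain ⟨t, ht⟩ := hnN
    rw [ht, pow_mul, CV_zet_pow hn0, one_pow]), hq]
  congr 1
  · rw [← zpow_natCast, ← zpow_mul]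
    congr 1
    ring
  · refine ((hE10 k τ N a' hN0 ha').2.1 f hm.odd hm.three hfN).2.2 m b hm.ne hb.ne hm.two hm.cop hb.cop
      ⟨f * n, hN⟩ _ (hz2 (NI m)) hz1

end Pool.Agent.DK
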