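import Pool.Agent.Lib.DK.CV.Bas

/-!
# Theorem DK, part CV, module C9: integrality of the values at the primes above `2` (author helper97)
-/

set_option autoImplicit false

open scoped Pointwise

noncomputable section

namespace Pool.Agent.DK

open Pool.Agent.MuZ Pool.Agent.FW NumberField IsDedekindDomain
open Pool.Agent.DI (io ofC io_inj exists_io io_ofC ofC_io VP MP UP TP ex sqr sqr_sq kap)

variable {k : ℕ}

theorem C9_NI_odd (h6 : S_O6) [SqK k] {m : Ideal (OO k)} (h : PrI m 2) : Odd (NI m) := by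
  have h1 : (NI m).Coprime 2 := ((h6 k).2.2.1 2 m (by norm_num)).1 h
  exact Nat.coprime_two_right.1 h1

/-- Odd denominators. -/
theorem C9_odd (h3 : S_O3) (h6 : S_O6) (hL3 : S_L3) (hC4 : S_C4) (hD9 : S_D9) [SqK k]
    {f : ℕ} {m b : Ideal (OO k)} (hm : FM f m) (hb : FB f b) {P : Ideal ZZ} (hP : Npr P)
    (hP2 : MP P 2) (c : ℤ) {n : ℕ} (hn : Odd n) (hc : n.Coprime (NI m)) :
    VP P (etaM f m b (c / n)) := by
  have hPp := hP.1
  have hn0 : 0 < n := hn.pos
  have hf2 : 2 ≤ f := by have := hm.three; omega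
  obtain ⟨U, hU, -⟩ := (hL3 k (sp (n : OO k)) b (CV_sp_ne (CV_nat_ne hn0.ne')) hb.ne).2.2
  obtain ⟨-, -, h8⟩ := hC4 k f m b hm hb c n hn0 hc
  obtain ⟨-, h11⟩ := h8 U hU
  rw [h11]
  have hmb : PrI (m * b) f := ((h6 k).1 f m b).2 ⟨hm.cop, hb.cop⟩
  have hun : UP P (n : Om) := by
    have h := CV_up_odd hPp hP2 (n := (n : ℤ)) (by exact_mod_cast hn)
    rwa [Int.cast_natCast] at h
  refine (hun.inv.1).mul (DI.VP.sum _ _ fun u hu => ?_)
  obtain ⟨hz1, hz2⟩ := CV_zu hf2 hn0 hmb (hU.mem u hu)
  refine ((CV_up_zpow hPp (CV_up_of_pow hPp hn0 (CV_zet_pow hn0)) _).1).mul ?_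
  refine ((hD9 k f hm.odd hm.three P hP hP2).2.2 m b hm.ne hb.ne hm.two hm.cop hb.cop _ ?_ ?_).1
  · have h5 := hz2 1
    rw [one_mul] at h5
    exact (tor_iff hb.ne).2 ⟨f * n, Nat.mul_pos (by omega) hn0, h5⟩
  · intro u' hu' hq
    have hodd : Odd (NI m * (f * n)) := (C9_NI_odd h6 hm.two).mul (hm.odd.mul hn)
    have h1 : ¬ MP P (toO (((NI m * (f * n) : ℕ)) : OO k)) := by
      rw [toO_nat]
      have h := (CV_up_odd hPp hP2 (n := ((NI m * (f * n) : ℕ) : ℤ)) (by exact_mod_cast hodd)).2
      rwa [Int.cast_natCast] at h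
    have h4 := hq _ 1 h1 (by
      rw [mul_one, toC_nat, mul_add]
      refine lam_add (hz2 (NI m)) ?_
      have h5 : ((NI m * (f * n) : ℕ) : ℂ) * u' = ((f * n : ℕ) : ℂ) * (toC ((NI m : ℕ) : OO k) * u') := by
        rw [toC_nat]
        push_cast
        ring
      rw [h5]
      exact lam_nat _ (lam_prod.1 hu' _ (CV_NI_mem h3 m)))
    rw [toC_one, one_mul] at h4
    apply hz1
    have h6 := lam_sub (lam_mono (a := m) h4) hu'
    rwa [add_sub_cancel_right] at h6

theorem sC9 (h3 : S_O3) (h6 : S_O6) (hL3 : S_L3) (hC1 : S_C1) (hC4 : S_C4) (hC6 : S_C6)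
    (hD9 : S_D9) : S_C9 := by
  intro k _ f M m b hm hb hb2 hM r hr P hP hP2
  have hNm : NI m ∣ M := by
    refine dvd_trans ?_ hM.dvd
    unfold lev
    refine Dvd.dvd.mul_left ?_ _
    refine dvd_pow ?_ (by norm_num)
    exact Dvd.intro _ rfl
  rcases Nat.even_or_odd r.den with he | ho
  · -- even denominator
    have h1 : IsCoprime (r.den : ℤ) (M * r.num : ℤ) := by
      refine IsCoprime.mul_right (Nat.isCoprime_iff_coprime.2 hr) ?_
      have h4 := r.reduced
      exact (Int.isCoprime_iff_nat_coprime.2 (by simpa using h4)).symm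
    obtain ⟨a, c', hac⟩ := h1
    obtain ⟨d, hd⟩ : ∃ d : ℤ, d = (r.den : ℤ) := ⟨_, rfl⟩
    rw [← hd] at hac
    have hG : G0 M a r.num (-(M * c')) d := ⟨by linarith, ⟨-c', by ring⟩⟩
    obtain ⟨-, hd0, h5⟩ := hC1 k f M m b hm hb hb2 hM a r.num (-(M * c')) d hG
    obtain ⟨h6', h7⟩ := h5 1 (by simp)
    have hper := (hC6 k f m (sp (a : OO k) * b) hm (CV_fb_mul h6 (CV_fb_int h6 (by have := hm.three; omega)
      (hC1 k f M m b hm hb hb2 hM a r.num (-(M * c')) d hG).1 ?_) hb)).2.1 0
    · rw [zero_add] at hper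
      rw [hper, sub_self, mul_zero, zero_add] at h7
      have hrd : (r.num : ℚ) / (d : ℚ) = r := by
        rw [hd, Int.cast_natCast]
        exact Rat.num_div_den r
      rw [hrd] at h7
      rw [← h7]
      -- the odd denominator
      set q : ℤ := -(M * c') + d with hq
      have hdE : Even d := by rw [hd]; exact_mod_cast he
      have hc'o : Odd (M * c' : ℤ) := by
        rcases Int.even_or_odd (M * c' : ℤ) with h8 | h8
        · exfalso
          have h9 : Even (a * d + c' * (M * r.num)) := by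
            refine (hdE.mul_left a).add ?_
            have e : c' * (M * r.num) = (M * c') * r.num := by ring
            rw [e]
            exact h8.mul_right _
          rw [hac] at h9
          exact absurd h9 (by decide)
        · exact h8
      have hqo : Odd q := by
        rw [hq]
        exact hc'o.neg.add_even hdE
      have hqM : IsCoprime q (M : ℤ) := by
        have e : q = d + M * (-c') := by rw [hq]; ring
        rw [e, hd]
        exact (IsCoprime.add_mul_left_left_iff).2 (Nat.isCoprime_iff_coprime.2 hr)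
      have hqN : (q.natAbs).Coprime (NI m) := by
        have h8 : q.natAbs.Coprime M := by
          have := Int.isCoprime_iff_nat_coprime.1 hqM
          simpa using this
        exact h8.coprime_dvd_right hNm
      have hq0 : q ≠ 0 := by
        rintro h0
        rw [h0] at hqo
        exact absurd hqo (by decide)
      have e2 : ((a * 1 + r.num) / ((-(M * c') : ℤ) * 1 + d) : ℚ) =
          ((q.sign * (a + r.num) : ℤ) : ℚ) / (q.natAbs : ℚ) := by
        have h8 : (q : ℚ) ≠ 0 := by exact_mod_cast hq0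
        have h9 : ((q.natAbs : ℕ) : ℚ) = (q.sign * q : ℤ) := by
          rw [Int.sign_mul_self_eq_natAbs]
          simp
        rw [h9]
        have h10 : (q.sign : ℚ) ≠ 0 := by
          have : q.sign ≠ 0 := by simpa using hq0
          exact_mod_cast this
        have h11 : ((-(M * c') : ℤ) : ℚ) * 1 + d = q := by
          rw [hq]
          push_cast
          ring
        rw [h11]
        push_cast
        field_simp
      rw [e2]
      exact C9_odd h3 h6 hL3 hC4 hD9 hm hb hP hP2 _ (Int.natAbs_odd.2 hqo) hqN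
    · -- a is prime to f
      have hfM : f ∣ M := by
        refine dvd_trans ?_ hM.dvd
        unfold lev
        refine Dvd.dvd.mul_right ?_ _
        exact Dvd.intro_left (Dk k * f) (by ring)
      have haM : IsCoprime a (M : ℤ) := ⟨d, c' * r.num, by linarith⟩
      exact haM.of_isCoprime_of_dvd_right (by exact_mod_cast hfM)
  · have h1 : (r.num : ℚ) / (r.den : ℚ) = r := Rat.num_div_den r
    have h4 := C9_odd h3 h6 hL3 hC4 hD9 hm hb hP hP2 r.num ho (hr.coprime_dvd_right hNm)
    rwa [h1] at h4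

end Pool.Agent.DK
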