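import Pool.Agent.Lib.DK.CV.Bas

/-!
# Theorem DK, part CV, module V1: characters of the ray class group (author helper97)
-/

set_option autoImplicit false

open scoped Pointwise

noncomputable section

namespace Pool.Agent.DK

open Pool.Agent.MuZ Pool.Agent.FW NumberField IsDedekindDomain
open Pool.Agent.DI (io ofC io_inj exists_io io_ofC ofC_io VP MP UP TP ex sqr sqr_sq kap)

variable {k : ℕ} {f : ℕ} {χ : Ideal (OO k) → Om}

theorem V1_ne (h : IsChi f χ) {b : Ideal (OO k)} (hb : FB f b) : χ b ≠ 0 := by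
  obtain ⟨m, hm, h1⟩ := h.odd
  intro h0
  have h2 := h1 b hb.ne hb.cop
  rw [h0, zero_pow hm.pos.ne'] at h2
  exact zero_ne_one h2

theorem V1_up (h : IsChi f χ) {P : Ideal ZZ} (hP : P.IsPrime) {b : Ideal (OO k)} (hb : FB f b) :
    UP P (χ b) := by
  obtain ⟨m, hm, h1⟩ := h.odd
  exact CV_up_of_pow hP hm.pos (h1 b hb.ne hb.cop)

theorem V1_top [SqK k] (h : IsChi f χ) : χ ⊤ = 1 := by
  have h1 := h.mul ⊤ ⊤
  rw [Ideal.top_mul] at h1
  have h2 := V1_ne h (CV_fb_top (k := k) f)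
  have h3 : χ ⊤ * 1 = χ ⊤ * χ ⊤ := by rw [mul_one]; exact h1
  exact (mul_left_cancel₀ h2 h3).symm

theorem V1_ray (h : IsChi f χ) {b b' : Ideal (OO k)} (hb : FB f b) (hb' : FB f b') (hr : Ray f b b') :
    χ b = χ b' := h.ray b b' hb.ne hb'.ne hb.cop hb'.cop hr

/-- `χ((n)) = 1` for `n = 1` modulo `f`. -/
theorem V1_int (h6 : S_O6) (h7 : S_O7) [SqK k] (h : IsChi f χ) (hf : 0 < f) {n : ℤ} (hn : n ≠ 0)
    (h1 : (f : ℤ) ∣ n - 1) : χ (sp (n : OO k)) = 1 := by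
  have hc : IsCoprime n (f : ℤ) := by
    obtain ⟨t, ht⟩ := h1
    exact ⟨1, -t, by linarith⟩
  have hF := CV_fb_int h6 (k := k) hf hn hc
  have h3 := V1_ray h hF (CV_fb_top (k := k) f) ?_
  · rw [h3, V1_top h]
  · have h4 := (h7 k f hf).2.2.2.2.2.2.2.1 (n : OO k) 1 (CV_int_ne hn) one_ne_zero
      (by unfold Cop; rw [Nm_int]; exact hc.pow_left) (cop_one f)
    have h5 := h4.2 (Or.inl ?_)
    · have e : sp (1 : OO k) = ⊤ := Ideal.span_singleton_one
      rw [e] at h5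
      exact h5
    · obtain ⟨t, ht⟩ := h1
      refine ⟨(t : OO k), ?_⟩
      have h8 : ((n - 1 : ℤ) : OO k) = ((f * t : ℤ) : OO k) := by rw [ht]
      push_cast at h8
      exact h8

theorem V1_sp_mul [SqK k] (v u : OO k) : sp v * sp u = sp (v * u) :=
  Ideal.span_singleton_mul_span_singleton v u

/-- The sum over the ray class group, translated by `c`. -/
theorem V1_sum (h6 : S_O6) (h7 : S_O7) [SqK k] (h : IsChi f χ) (hf : 0 < f) {R : Finset (Ideal (OO k))}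
    (hR : IsRC f R) {c : Ideal (OO k)} (hc : FB f c) (F : Ideal (OO k) → Om)
    (hF : ∀ b b', FB f b → FB f b' → Ray f b b' → F b = F b') :
    χ c * ∑ b ∈ R, χ b * F (c * b) = ∑ b ∈ R, χ b * F b := by
  classical
  have hRF : ∀ b ∈ R, FB f b := fun b hb => ⟨(hR.mem b hb).1, (hR.mem b hb).2⟩
  have hex : ∀ b : Ideal (OO k), ∃ b' : Ideal (OO k), b ∈ R → b' ∈ R ∧ Ray f (c * b) b' := by
    intro b
    by_cases hb : b ∈ R
    · have h1 := CV_fb_mul h6 hc (hRF b hb)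
      obtain ⟨b', hb', h2⟩ := hR.ex (c * b) h1.ne h1.cop
      exact ⟨b', fun _ => ⟨hb', h2⟩⟩
    · exact ⟨⊤, fun h1 => absurd h1 hb⟩
  choose π hπ using hex
  obtain ⟨h71, h72, h73, h74, h75, -⟩ := h7 k f hf
  have hmaps : Set.MapsTo π (R : Set (Ideal (OO k))) R := fun b hb => (hπ b hb).1
  have hinj : Set.InjOn π (R : Set (Ideal (OO k))) := by
    intro b hb b' hb' hbb
    have h1 := (hπ b hb).2
    have h2 := (hπ b' hb').2
    rw [← hbb] at h2
    have h3 := h73 _ _ _ h1 (h72 _ _ h2)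
    refine hR.uni b hb b' hb' (h75 b b' c hc.ne hc.cop ?_)
    rw [mul_comm b c, mul_comm b' c]
    exact h3
  have hsurj : Set.SurjOn π (R : Set (Ideal (OO k))) R :=
    Finset.surjOn_of_injOn_of_card_le π hmaps hinj le_rfl
  rw [Finset.mul_sum]
  refine Finset.sum_nbij π hmaps hinj hsurj ?_
  intro b hb
  have h1 := CV_fb_mul h6 hc (hRF b hb)
  have h2 := hRF _ (hπ b hb).1
  rw [← V1_ray h h1 h2 (hπ b hb).2, ← hF _ _ h1 h2 (hπ b hb).2, h.mul]
  ring

end Pool.Agent.DK
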