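import Pool.Agent.Lib.DK.CV.V1

/-!
# Theorem DK, part CV, module V2: the quotients of the framings modulo `2` (author helper97)
-/

set_option autoImplicit false

open scoped Pointwise

noncomputable section

namespace Pool.Agent.DK

open Pool.Agent.MuZ Pool.Agent.FW NumberField IsDedekindDomain
open Pool.Agent.DI (io ofC io_inj exists_io io_ofC ofC_io VP MP UP TP ex sqr sqr_sq kap)

variable {k : ℕ}

theorem V2_int_not (h4 : S_O4) [SqK k] {n : ℤ} (hn : Odd n) : ¬ sp (n : OO k) ≤ pp k := by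
  intro h
  have h1 : (n : OO k) ∈ pp k := h (Ideal.mem_span_singleton_self _)
  have h2 := ((h4 k).2.2.2.2.2.2.2.2.2.1 (n : OO k)).1 h1
  rw [re_int] at h2
  obtain ⟨t, ht⟩ := hn
  omega

theorem V2_ppb_not (h4 : S_O4) [SqK k] : ¬ ppb k ≤ pp k := by
  intro h
  have h1 := (h4 k).2.2.2.2.2.2.1
  have h2 := (h4 k).2.2.1.ne_top
  rw [sup_eq_left.2 h] at h1
  exact h2 h1

theorem V2_mul_not (h4 : S_O4) [SqK k] {a b : Ideal (OO k)} (ha : ¬ a ≤ pp k) (hb : ¬ b ≤ pp k) :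
    ¬ a * b ≤ pp k := by
  intro h
  have h1 := (h4 k).2.2.1
  rcases h1.mul_le.1 h with h2 | h2
  · exact ha h2
  · exact hb h2

theorem V2_fb_two (h4 : S_O4) (h6 : S_O6) [SqK k] {f : ℕ} (hf : Odd f) :
    FB f (pp k) ∧ FB f (ppb k) ∧ FB f (sp (2 : OO k)) := by
  have hf0 : 0 < f := hf.pos
  have h1 : FB f (sp ((2 : ℤ) : OO k)) := by
    refine CV_fb_int h6 hf0 (by norm_num) ?_
    have h2 : (2 : ℕ).Coprime f := (Nat.coprime_two_left).2 hf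
    exact_mod_cast Nat.isCoprime_iff_coprime.2 h2
  rw [Int.cast_ofNat] at h1
  obtain ⟨h5, -, -, -, -, -, -, h7, h8, -⟩ := h4 k
  have h9 := h1.cop
  rw [← h5] at h9
  have h10 := ((h6 k).1 f _ _).1 h9
  exact ⟨⟨h7, h10.1⟩, ⟨h8, h10.2⟩, h1⟩

/-- The factor of an ideal which is not divisible by `pp`. -/
theorem V2_one (hD9 : S_D9) [SqK k] {f : ℕ} (hfo : Odd f) (hf3 : 3 ≤ f) {P : Ideal ZZ} (hP : AbP k P)
    {a b : Ideal (OO k)} (ha : FB f a) (hb : FB f b) (hap : ¬ a ≤ pp k) {n : ℤ} (hn : Odd n) :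
    TP P 2 (rO f b (a * b) / n - 1) := by
  have hPp := hP.1.1
  refine CV_tp_one_div hPp hP.2.1 ?_ (CV_tp_int hPp hn)
  exact CV_tp_pm hPp ((hD9 k f hfo hf3 P hP.1 hP.2.1).1 a b ha.ne hb.ne ha.cop hb.cop
    (Or.inl ⟨hP, hap⟩))

/-- The factor of an ideal divisible by `pp`. -/
theorem V2_two (h4 : S_O4) (h6 : S_O6) (hR5 : S_R5) (hD9 : S_D9) [SqK k] {f : ℕ} (hfo : Odd f)
    (hf3 : 3 ≤ f) {P : Ideal ZZ} (hP : AbP k P) {a b : Ideal (OO k)} (ha : FB f a) (hb : FB f b)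
    (hap : ¬ a ≤ pp k) {n : ℤ} (hn : Odd n) : TP P 2 (rO f b (pp k * (a * b)) / n) := by
  have hPp := hP.1.1
  obtain ⟨hpp, -, -⟩ := V2_fb_two h4 h6 (k := k) hfo
  have hab := CV_fb_mul h6 ha hb
  have hpab := CV_fb_mul h6 hpp hab
  have htop : FB f (⊤ : Ideal (OO k)) := CV_fb_top f
  have h1 : TP P 2 (rO f (pp k * (a * b)) (a * b) * 2 - 1) :=
    CV_tp_pm hPp (((hD9 k f hfo hf3 P hP.1 hP.2.1).2.1 (a * b) hab.ne hab.cop).1 hP)
  have h2 : TP P 2 (rO f b (a * b) - 1) :=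
    CV_tp_pm hPp ((hD9 k f hfo hf3 P hP.1 hP.2.1).1 a b ha.ne hb.ne ha.cop hb.cop
    (Or.inl ⟨hP, hap⟩))
  obtain ⟨hn1, e1, -⟩ := hR5 k f ⊤ b (a * b) hfo hf3 top_ne_bot hb.ne hab.ne (CV_top 2) (CV_top f)
    hb.cop hab.cop
  obtain ⟨hn2, e2, -⟩ := hR5 k f ⊤ (pp k * (a * b)) (a * b) hfo hf3 top_ne_bot hpab.ne hab.ne
    (CV_top 2) (CV_top f) hpab.cop hab.cop
  obtain ⟨hn3, -, -⟩ := hR5 k f ⊤ (a * b) (a * b) hfo hf3 top_ne_bot hab.ne hab.ne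
    (CV_top 2) (CV_top f) hab.cop hab.cop
  obtain ⟨-, e3, -⟩ := hR5 k f ⊤ b (pp k * (a * b)) hfo hf3 top_ne_bot hb.ne hpab.ne (CV_top 2)
    (CV_top f) hb.cop hpab.cop
  have e4 : rO f b (pp k * (a * b)) = 2 * (rO f b (a * b) * (rO f (pp k * (a * b)) (a * b) * 2)⁻¹) := by
    apply io_inj
    rw [map_mul, map_mul, map_inv₀, map_mul, map_ofNat, e1, e2, e3]
    field_simp
  rw [e4]
  have h3 := CV_tp_one_mul hPp h2 (CV_tp_one_inv hPp hP.2.1 h1)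
  refine ⟨rO f b (a * b) * (rO f (pp k * (a * b)) (a * b) * 2)⁻¹ / n, ?_, by ring⟩
  exact (CV_tp_one_up hPp hP.2.1 (CV_tp_one_div hPp hP.2.1 h3 (CV_tp_int hPp hn))).1

end Pool.Agent.DK
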