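import Pool.Agent.Lib.DK.CV.V2

/-!
# Theorem DK, part CV, module V3: the functions `η_χ` modulo `P`, the input of part V (author helper97)
-/

set_option autoImplicit false

open scoped Pointwise

noncomputable section

namespace Pool.Agent.DK

open Pool.Agent.MuZ Pool.Agent.FW NumberField IsDedekindDomain
open Pool.Agent.DI (io ofC io_inj exists_io io_ofC ofC_io VP MP UP TP ex sqr sqr_sq kap)

variable {k : ℕ}

/-- Levels. -/
theorem V3_lv [SqK k] {f M : ℕ} {m : Ideal (OO k)} {R : Finset (Ideal (OO k))} (h : IsLv f m R M)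
    {b : Ideal (OO k)} (hb : b ∈ R) : IsLv f m {b} M := by
  refine ⟨h.odd, h.three, dvd_trans ?_ h.dvd⟩
  unfold lev
  rw [Finset.prod_singleton]
  exact mul_dvd_mul_left _ (pow_dvd_pow_of_dvd (mul_dvd_mul_left _ (Finset.dvd_prod_of_mem NI hb)) 3)

theorem V3_f [SqK k] {f M : ℕ} {m : Ideal (OO k)} {R : Finset (Ideal (OO k))} (h : IsLv f m R M) :
    f ∣ M ∧ NI m ∣ M ∧ Dk k ∣ M := by
  have h1 := h.dvd
  unfold lev at h1
  refine ⟨dvd_trans ?_ h1, dvd_trans ?_ h1, dvd_trans ?_ h1⟩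
  · exact Dvd.dvd.mul_right (Dvd.intro_left (Dk k * f) (by ring)) _
  · exact Dvd.dvd.mul_left (dvd_pow (Dvd.intro _ rfl) (by norm_num)) _
  · exact Dvd.dvd.mul_right (Dvd.intro _ rfl) _

/-- The symbol of an integer prime to `M`. -/
theorem V3_eps [SqK k] {P : Ideal ZZ} (hP : P.IsPrime) {M : ℕ} (hM : Dk k ∣ M) {d : ℤ}
    (hd : IsCoprime d (M : ℤ)) : TP P 2 ((eps (d : OO k) : Om) - 1) := by
  have h1 : IsCoprime (2 * d : ℤ) (Dk k : ℤ) := by
    refine IsCoprime.mul_left ?_ (hd.of_isCoprime_of_dvd_right (by exact_mod_cast hM))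
    refine ⟨4 * k, -1, ?_⟩
    rw [Dk_cast]
    ring
  have h2 : eps (d : OO k) = 1 ∨ eps (d : OO k) = -1 := by
    unfold eps
    rw [re_int, im_int, add_zero]
    exact jacobiSym.eq_one_or_neg_one (Int.isCoprime_iff_gcd_eq_one.1 h1)
  refine CV_tp_int hP ?_
  rcases h2 with h2 | h2 <;> rw [h2] <;> decide

/-- The values are class functions and integral at the primes above `2`. -/
theorem V3_vp (h7 : S_O7) (hC6 : S_C6) (hC9 : S_C9) [SqK k] {f M : ℕ} {m : Ideal (OO k)}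
    {R : Finset (Ideal (OO k))} (hm : FM f m) (hR : FR f R) (hRC : IsRC f R) (hM : IsLv f m R M)
    {P : Ideal ZZ} (hP : Npr P) (hP2 : MP P 2) {b : Ideal (OO k)} (hb : FB f b) {r : ℚ}
    (hr : r.den.Coprime M) : VP P (etaM f m b r) := by
  obtain ⟨b', hb', h1⟩ := hRC.ex b hb.ne hb.cop
  obtain ⟨h2, h3, h4⟩ := hR b' hb'
  rw [((hC6 k f m b hm hb).1 b' ⟨h2, h3⟩ h1).2 r]
  exact hC9 k f M m b' hm ⟨h2, h3⟩ h4 (V3_lv hM hb') r hr P hP hP2

theorem V3_odd (h6 : S_O6) (h7 : S_O7) (h4 : S_O4) (hC1 : S_C1) (hC6 : S_C6) (hC9 : S_C9)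
    (hD9 : S_D9) [SqK k] {f M : ℕ} {m : Ideal (OO k)} {R : Finset (Ideal (OO k))} (hm : FM f m)
    (hR : FR f R) (hRC : IsRC f R) (hM : IsLv f m R M) {χ : Ideal (OO k) → Om} (hχ : IsChi f χ)
    {P : Ideal ZZ} (hP : AbP k P) {a b c d : ℤ} (hG : G0 M a b c d) (ha : Odd a) {r : ℚ}
    (hr : r.den.Coprime M) :
    MP P (etaX f m R χ ((a * r + b) / (c * r + d)) - χ (sp (d : OO k)) * etaX f m R χ r -
      (etaX f m R χ (b / d) - χ (sp (d : OO k)) * etaX f m R χ 0)) := by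
  have hPp := hP.1.1
  have hM2 : 2 ≤ M := le_trans (by norm_num) hM.three
  have hf0 : 0 < f := by have := hm.three; omega
  obtain ⟨hd, haM, -, -⟩ := CV_mob hM2 hG hr
  obtain ⟨hfM, -, hDM⟩ := V3_f hM
  have hfM' : (f : ℤ) ∣ (M : ℤ) := by exact_mod_cast hfM
  have haf : IsCoprime a (f : ℤ) := haM.of_isCoprime_of_dvd_right hfM'
  have hdf : IsCoprime d (f : ℤ) := hd.of_isCoprime_of_dvd_right hfM'
  have hzero : ∀ n : ℤ, IsCoprime n (M : ℤ) → n ≠ 0 := by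
    rintro n hn rfl
    have h1 := Int.isUnit_iff.1 (isCoprime_zero_left.1 hn)
    omega
  have ha0 := hzero a haM
  have hd0 := hzero d hd
  have haF := CV_fb_int h6 (k := k) hf0 ha0 haf
  have hdF := CV_fb_int h6 (k := k) hf0 hd0 hdf
  -- `χ(a) χ(d) = 1`
  have hχad : χ (sp (d : OO k)) * χ (sp (a : OO k)) = 1 := by
    rw [← hχ.mul, V1_sp_mul]
    have e : (d : OO k) * (a : OO k) = ((d * a : ℤ) : OO k) := by push_cast; ring
    rw [e]
    refine V1_int h6 h7 hχ hf0 (mul_ne_zero hd0 ha0) ?_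
    obtain ⟨h1, c', hc'⟩ := hG
    obtain ⟨t, ht⟩ := hfM'
    refine ⟨b * (t * c'), ?_⟩
    rw [hc', ht] at h1
    linarith
  -- the sums
  have hsum : ∀ s : ℚ, χ (sp (d : OO k)) * etaX f m R χ s =
      ∑ b' ∈ R, χ b' * etaM f m (sp (a : OO k) * b') s := by
    intro s
    have h1 := V1_sum h6 h7 hχ hf0 hRC haF (fun b' => etaM f m b' s)
      (fun b1 b2 hb1 hb2 hr12 => ((hC6 k f m b1 hm hb1).1 b2 hb2 hr12).2 s)
    unfold etaX
    rw [← h1, ← mul_assoc, hχad, one_mul]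
  rw [hsum r, hsum 0]
  have hterm : ∀ b' ∈ R, etaM f m b' ((a * r + b) / (c * r + d)) =
      (eps (d : OO k) : Om) * (rO f b' (sp (a : OO k) * b') / a) *
          (etaM f m (sp (a : OO k) * b') r - etaM f m (sp (a : OO k) * b') 0) +
        etaM f m b' (b / d) := by
    intro b' hb'
    obtain ⟨h8, h9, h10⟩ := hR b' hb'
    exact ((hC1 k f M m b' hm ⟨h8, h9⟩ h10 (V3_lv hM hb') a b c d hG).2.2 r hr).2
  have e1 : etaX f m R χ ((a * r + b) / (c * r + d)) -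
      ∑ b' ∈ R, χ b' * etaM f m (sp (a : OO k) * b') r -
      (etaX f m R χ (b / d) - ∑ b' ∈ R, χ b' * etaM f m (sp (a : OO k) * b') 0) =
      ∑ b' ∈ R, ((eps (d : OO k) : Om) * (rO f b' (sp (a : OO k) * b') / a) - 1) *
        (χ b' * (etaM f m (sp (a : OO k) * b') r - etaM f m (sp (a : OO k) * b') 0)) := by
    unfold etaX
    rw [← Finset.sum_sub_distrib, ← Finset.sum_sub_distrib, ← Finset.sum_sub_distrib]
    refine Finset.sum_congr rfl fun b' hb' => ?_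
    rw [hterm b' hb']
    ring
  rw [e1]
  refine DI.MP.sum _ _ fun b' hb' => ?_
  obtain ⟨h8, h9, h10⟩ := hR b' hb'
  have hb'F : FB f b' := ⟨h8, h9⟩
  refine CV_tp_mp hPp hP.2.1 (CV_tp_mul hPp ?_ ?_)
  · exact CV_tp_one_mul hPp (V3_eps hPp hDM hd)
      (V2_one hD9 hm.odd hm.three hP haF hb'F (V2_int_not h4 ha) ha)
  · have hab := CV_fb_mul h6 haF hb'F
    refine (V1_up hχ hPp hb'F).1.mul (DI.VP.sub ?_ ?_)
    · exact V3_vp h7 hC6 hC9 hm hR hRC hM hP.1 hP.2.1 hab hr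
    · exact V3_vp h7 hC6 hC9 hm hR hRC hM hP.1 hP.2.1 hab (by simp)

theorem V3_per (hC6 : S_C6) [SqK k] {f : ℕ} {m : Ideal (OO k)} {R : Finset (Ideal (OO k))}
    (hm : FM f m) (hR : FR f R) (χ : Ideal (OO k) → Om) (r : ℚ) :
    etaX f m R χ (r + 1) = etaX f m R χ r := by
  unfold etaX
  refine Finset.sum_congr rfl fun b hb => ?_
  obtain ⟨h8, h9, -⟩ := hR b hb
  rw [(hC6 k f m b hm ⟨h8, h9⟩).2.1 r]

/-- The Hecke relation modulo `2`. -/
theorem V3_hecke (h4 : S_O4) (h6 : S_O6) (h7 : S_O7) (hC5 : S_C5) (hC6 : S_C6) (hC9 : S_C9)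
    (hR5 : S_R5) (hD9 : S_D9) [SqK k] {f M : ℕ} {m : Ideal (OO k)} {R : Finset (Ideal (OO k))}
    (hm : FM f m) (hR : FR f R) (hRC : IsRC f R) (hM : IsLv f m R M) {χ : Ideal (OO k) → Om}
    (hχ : IsChi f χ) {P : Ideal ZZ} (hP : AbP k P) {r : ℚ} (hr : r.den.Coprime M) :
    TP P 2 (etaX f m R χ (r / 2) + etaX f m R χ ((r + 1) / 2) +
      χ (sp 2) * etaX f m R χ (2 * r) - χ (pp k) * etaX f m R χ r) := by
  have hPp := hP.1.1
  have hf0 : 0 < f := by have := hm.three; omega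
  have hM2 : 2 ≤ M := le_trans (by norm_num) hM.three
  obtain ⟨-, hNM, -⟩ := V3_f hM
  -- an odd inverse of `2`
  obtain ⟨h, hho, hh⟩ : ∃ h : ℕ, Odd h ∧ (f : ℤ) ∣ 2 * h - 1 := by
    obtain ⟨t, ht⟩ := hm.odd
    rcases Nat.even_or_odd (t + 1) with h1 | h1
    · refine ⟨t + 1 + f, h1.add_odd hm.odd, ⟨3, ?_⟩⟩
      push_cast
      rw [ht]
      push_cast
      ring
    · refine ⟨t + 1, h1, ⟨1, ?_⟩⟩
      rw [ht]
      push_cast
      ring
  have hh0 : 0 < h := hho.pos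
  have hhoZ : Odd (h : ℤ) := by exact_mod_cast hho
  have hhf : IsCoprime (h : ℤ) (f : ℤ) := by
    obtain ⟨t, ht⟩ := hh
    exact ⟨2, -t, by linarith⟩
  have hhF : FB f (sp (h : OO k)) := by
    have h1 := CV_fb_int h6 (k := k) hf0 (n := (h : ℤ)) (by exact_mod_cast hh0.ne') hhf
    rwa [Int.cast_natCast] at h1
  have hhn : ¬ sp (h : OO k) ≤ pp k := by
    have h1 := V2_int_not h4 (k := k) hhoZ
    rwa [Int.cast_natCast] at h1
  obtain ⟨hpp, hppb, h2F⟩ := V2_fb_two h4 h6 (k := k) hm.odd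
  have hhb := CV_fb_mul h6 hhF hppb
  -- characters
  have hχ2h : χ (sp (2 : OO k)) * χ (sp (h : OO k)) = 1 := by
    rw [← hχ.mul, V1_sp_mul]
    have e : (2 : OO k) * (h : OO k) = ((2 * h : ℤ) : OO k) := by push_cast; ring
    rw [e]
    exact V1_int h6 h7 hχ hf0 (by positivity) hh
  have hχpp : χ (pp k) * χ (sp (h : OO k) * ppb k) = 1 := by
    rw [← hχ.mul]
    have e : pp k * (sp (h : OO k) * ppb k) = sp (2 : OO k) * sp (h : OO k) := by
      rw [← (h4 k).1]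
      ring
    rw [e, hχ.mul, hχ2h]
  have hcl : ∀ (s : ℚ) (b1 b2 : Ideal (OO k)), FB f b1 → FB f b2 → Ray f b1 b2 →
      etaM f m b1 s = etaM f m b2 s := fun s b1 b2 hb1 hb2 hr12 =>
    ((hC6 k f m b1 hm hb1).1 b2 hb2 hr12).2 s
  have hs1 : χ (sp (2 : OO k)) * etaX f m R χ (2 * r) =
      ∑ b ∈ R, χ b * etaM f m (sp (h : OO k) * b) (2 * r) := by
    have h1 := V1_sum h6 h7 hχ hf0 hRC hhF (fun b' => etaM f m b' (2 * r)) (hcl (2 * r))
    unfold etaX
    rw [← h1, ← mul_assoc, hχ2h, one_mul]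
  have hs2 : χ (pp k) * etaX f m R χ r =
      ∑ b ∈ R, χ b * etaM f m (sp (h : OO k) * ppb k * b) r := by
    have h1 := V1_sum h6 h7 hχ hf0 hRC hhb (fun b' => etaM f m b' r) (hcl r)
    unfold etaX
    rw [← h1, ← mul_assoc, hχpp, one_mul]
  rw [hs1, hs2]
  have hr2 : (2 * r).den.Coprime M := by
    refine CV_den_coprime (p := 2 * r.num) (q := r.den) (Nat.isCoprime_iff_coprime.2 hr) hM2 ?_
    have h1 : (r.num : ℚ) / (r.den : ℚ) = r := Rat.num_div_den r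
    conv_lhs => rw [← h1]
    push_cast
    ring
  have hC : ∀ b ∈ R, etaM f m b (r / 2) + etaM f m b ((r + 1) / 2) =
      -(rO f b (sp (h : OO k) * b) / h * etaM f m (sp (h : OO k) * b) (2 * r)) +
      rO f b (sp (h : OO k) * ppb k * b) / h * etaM f m (sp (h : OO k) * ppb k * b) r +
        rO f b (sp (h : OO k) * pp k * b) / h * etaM f m (sp (h : OO k) * pp k * b) r := by
    intro b hb
    obtain ⟨h8, h9, -⟩ := hR b hb
    have h1 := hC5 k f m b hm ⟨h8, h9⟩ h hh0 hh r (hr.coprime_dvd_right hNM)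
    linear_combination h1
  have e1 : etaX f m R χ (r / 2) + etaX f m R χ ((r + 1) / 2) +
      ∑ b ∈ R, χ b * etaM f m (sp (h : OO k) * b) (2 * r) -
      ∑ b ∈ R, χ b * etaM f m (sp (h : OO k) * ppb k * b) r =
      ∑ b ∈ R, ((rO f b (sp (h : OO k) * b) / h - 1) *
          (-(χ b * etaM f m (sp (h : OO k) * b) (2 * r))) +
        (rO f b (sp (h : OO k) * ppb k * b) / h - 1) *
          (χ b * etaM f m (sp (h : OO k) * ppb k * b) r) +
        (rO f b (sp (h : OO k) * pp k * b) / h) *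
          (χ b * etaM f m (sp (h : OO k) * pp k * b) r)) := by
    unfold etaX
    rw [← Finset.sum_add_distrib, ← Finset.sum_add_distrib, ← Finset.sum_sub_distrib]
    refine Finset.sum_congr rfl fun b hb => ?_
    have h1 := hC b hb
    linear_combination χ b * h1
  rw [e1]
  refine CV_tp_sum hPp _ _ fun b hb => ?_
  obtain ⟨h8, h9, -⟩ := hR b hb
  have hbF : FB f b := ⟨h8, h9⟩
  have hχb := (V1_up hχ hPp hbF).1
  have hvp : ∀ (c : Ideal (OO k)) (s : ℚ), FB f c → s.den.Coprime M → VP P (etaM f m c s) :=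
    fun c s hc hs => V3_vp h7 hC6 hC9 hm hR hRC hM hP.1 hP.2.1 hc hs
  have f1 := V2_one hD9 hm.odd hm.three hP hhF hbF hhn hhoZ
  have f2 := V2_one hD9 hm.odd hm.three hP hhb hbF (V2_mul_not h4 hhn (V2_ppb_not h4)) hhoZ
  have f3 := V2_two h4 h6 hR5 hD9 hm.odd hm.three hP hhF hbF hhn hhoZ
  rw [Int.cast_natCast] at f1 f2 f3
  have e3 : pp k * (sp (h : OO k) * b) = sp (h : OO k) * pp k * b := by ring
  rw [e3] at f3
  refine CV_tp_add hPp (CV_tp_add hPp (CV_tp_mul hPp f1 ?_) (CV_tp_mul hPp f2 ?_))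
    (CV_tp_mul hPp f3 ?_)
  · exact (hχb.mul (hvp _ _ (CV_fb_mul h6 hhF hbF) hr2)).neg
  · exact hχb.mul (hvp _ _ (CV_fb_mul h6 hhb hbF) hr)
  · exact hχb.mul (hvp _ _ (CV_fb_mul h6 (CV_fb_mul h6 hhF hpp) hbF) hr)

theorem sV (h4 : S_O4) (h6 : S_O6) (h7 : S_O7) (hC1 : S_C1) (hC5 : S_C5) (hC6 : S_C6) (hC9 : S_C9)
    (hR5 : S_R5) (hD9 : S_D9) : S_V := by
  intro k _ f M m R hm hR hRC hM χ hχ
  have hM2 : 2 ≤ M := le_trans (by norm_num) hM.three
  refine ⟨fun P hP hP2 r hr => ?_, V3_per hC6 hm hR χ, fun P hP => ⟨?_, fun r hr =>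
    V3_hecke h4 h6 h7 hC5 hC6 hC9 hR5 hD9 hm hR hRC hM hχ hP hr⟩⟩
  · have hPp := hP.1
    refine DI.VP.sum _ _ fun b hb => ?_
    obtain ⟨h8, h9, -⟩ := hR b hb
    exact (V1_up hχ hPp ⟨h8, h9⟩).1.mul (V3_vp h7 hC6 hC9 hm hR hRC hM hP hP2 ⟨h8, h9⟩ hr)
  · intro a b c d hG r hr
    obtain ⟨hd, haM, hne, hden⟩ := CV_mob hM2 hG hr
    refine ⟨hne, hden, ?_⟩
    rcases Int.even_or_odd a with ha | ha
    · have hc : Odd c := by
        rcases Int.even_or_odd c with h1 | h1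
        · exfalso
          have h2 : Even (a * d - b * c) := (ha.mul_right d).sub (h1.mul_left b)
          rw [hG.1] at h2
          exact absurd h2 (by decide)
        · exact h1
      have hG' : G0 M (a + c) (b + d) c d := ⟨by linarith [hG.1], hG.2⟩
      have h3 := V3_odd h6 h7 h4 hC1 hC6 hC9 hD9 hm hR hRC hM hχ hP hG' (ha.add_odd hc) hr
      have hd0 : (d : ℚ) ≠ 0 := by
        have : d ≠ 0 := by
          rintro rfl
          have h1 := Int.isUnit_iff.1 (isCoprime_zero_left.1 hd)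
          omega
        exact_mod_cast this
      have e1 : (((a + c : ℤ) : ℚ) * r + ((b + d : ℤ) : ℚ)) / (c * r + d) =
          (a * r + b) / (c * r + d) + 1 := by
        push_cast
        field_simp
        ring
      have e2 : ((b + d : ℤ) : ℚ) / d = b / d + 1 := by
        push_cast
        field_simp
      rw [e1, e2, V3_per hC6 hm hR, V3_per hC6 hm hR] at h3
      exact h3
    · exact V3_odd h6 h7 h4 hC1 hC6 hC9 hD9 hm hR hRC hM hχ hP hG ha hr

end Pool.Agent.DK
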